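import Pool.Agent.Run7.h329.Eng.Ex

open Topology Module

namespace Pool.Agent.Results.MP_d7c110_gt.NoEngelPerturbation

open Run7.h329.Engel

/-- Negative answer to Q1, on closed manifolds `M = E4 / Γ`, in two forms.
(1) `M` is orientable and the foliation is coorientable.
(2) The two line fields are trivial (spanned by nowhere zero vector fields of `M`).
In both cases no Engel structure on `M` is `C⁰`-close to `ξ`, whatever `[D, D]` is. -/
theorem result :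
    (∃ Γ F ξ L₁ L₂, IsData Γ F ξ L₁ L₂ ∧ Oriented Γ ∧ Coorientable Γ F ∧
      ¬ Perturbable Γ F ξ ∧ NoEngelNear Γ ξ) ∧
    (∃ Γ F ξ L₁ L₂, IsData Γ F ξ L₁ L₂ ∧ TrivialLine Γ L₁ ∧ TrivialLine Γ L₂ ∧
      ¬ Perturbable Γ F ξ ∧ NoEngelNear Γ ξ) := by
  refine ⟨⟨grp S1, fun _ => Fol, xi (1 / 2), L1, L2 (1 / 2), ?_, ?_, ?_, ?_, no_engel1⟩,
    ⟨grp S2, fun _ => Fol, xi 1, L1, L2 1, ?_, ?_, ?_, ?_, no_engel2⟩⟩
  · apply data_of (by norm_num) closed1
    rintro s v ⟨m, k, a, b, h⟩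
    simp only [Prod.ext_iff] at h
    obtain ⟨rfl, rfl⟩ := h
    exact ⟨_, _, adapt1 m k a b⟩
  · rintro _ ⟨s, v, ⟨m, k, a, b, h⟩, rfl⟩ x
    simp only [Prod.ext_iff] at h
    obtain ⟨rfl, rfl⟩ := h
    rw [dif_dg, dg_det, Fin.prod_univ_four]
    simp only [f1, Matrix.cons_val_zero, Matrix.cons_val_one, Matrix.cons_val]
    have := sq_unit m.negOnePow
    simp only [Units.val_one, Int.cast_one, mul_one]
    rw [this]
    exact one_pos
  · refine ⟨fun _ => EuclideanSpace.single 3 1, ?_, fun x => ⟨contDiffAt_const, ?_⟩⟩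
    · rintro _ ⟨s, v, ⟨m, k, a, b, h⟩, rfl⟩ x
      simp only [Prod.ext_iff] at h
      obtain ⟨rfl, rfl⟩ := h
      rw [dif_dg]
      show _ = (dg (f1 m k a b).1 (f1 m k a b).2).linearIsometryEquiv _
      ext i
      rw [dg_lin]
      fin_cases i <;> simp [f1]
    · intro hx
      rw [mem_Fol] at hx
      simp at hx
  · intro h
    obtain ⟨D, h1, h2, -⟩ := h (1 / 2) (by norm_num)
    exact no_engel1 D h1 (1 / 2) (by norm_num) h2
  · apply data_of (by norm_num) closed2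
    rintro s v ⟨k, a, b, m, h⟩
    simp only [Prod.ext_iff] at h
    obtain ⟨rfl, rfl⟩ := h
    exact ⟨_, _, adapt2 k a b m⟩
  · refine ⟨fun _ => e1, ?_, fun x => ⟨contDiffAt_const, e1_ne, rfl⟩⟩
    rintro _ ⟨s, v, ⟨k, a, b, m, h⟩, rfl⟩ x
    simp only [Prod.ext_iff] at h
    obtain ⟨rfl, rfl⟩ := h
    rw [dif_dg]
    show _ = (dg (f2 k a b m).1 (f2 k a b m).2).linearIsometryEquiv _
    rw [(adapt2 k a b m).2.2.1, one_smul]
  · refine ⟨e2 1, ?_, fun x => ⟨(e2_smooth 1).contDiffAt, e2_ne 1 x, rfl⟩⟩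
    rintro _ ⟨s, v, ⟨k, a, b, m, h⟩, rfl⟩ x
    simp only [Prod.ext_iff] at h
    obtain ⟨rfl, rfl⟩ := h
    rw [dif_dg]
    show _ = (dg (f2 k a b m).1 (f2 k a b m).2).linearIsometryEquiv _
    rw [(adapt2 k a b m).2.2.2, one_smul]
  · intro h
    obtain ⟨D, h1, h2, -⟩ := h (1 / 2) (by norm_num)
    exact no_engel2 D h1 (1 / 2) (by norm_num) h2

end Pool.Agent.Results.MP_d7c110_gt.NoEngelPerturbation
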